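import Mathlib
import Pool.Agent.H.MP_745574_co.B

set_option autoImplicit false

namespace Pool.Agent.Results.MP_745574_co.StrongNotWeak
open Pool.Agent.H.MP_745574_co

/-- There is a `1`-complex that is strongly `4`-ambiguous but not weakly `4`-ambiguous. -/
theorem result : ∃ C : Set (Set (E 4)), IsComplex 1 C ∧ Strong 4 1 C ∧ ¬ Weak 4 1 C := main

end Pool.Agent.Results.MP_745574_co.StrongNotWeak
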